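import Mathlib
import Pool.Agent.MP_6e06a5_co.Defs
import Pool.Agent.Mg.F6e06a5.Gd9475f

namespace Pool.Agent.Results.MP_6e06a5_co.OddTorus

open SimpleGraph Pool.Agent.MP_6e06a5_co

/-- For odd `L ≥ 3` and every even set `D` of vertices of the `L × L` toroidal grid, some minimum
`D`-join has every vertex of `D` of degree exactly one. -/
theorem result (L : ℕ) (hL : 3 ≤ L) (hodd : Odd L) (D : Finset (Fin L × Fin L))
    (hD : Even D.card) :
    ∃ J : Finset (Sym2 (Fin L × Fin L)),
      IsMinJoin (cycleGraph L □ cycleGraph L) D J ∧ ∀ v ∈ D, joinDeg J v = 1 :=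
  torus_main L hL hodd D hD

end Pool.Agent.Results.MP_6e06a5_co.OddTorus
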